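import Mathlib
import Pool.Agent.TH202.Defs
import Pool.Agent.TH922.C8_DAT
import Pool.Agent.TH551.C8_XM1
import Pool.Agent.TH755.C8_SEQ
import Pool.Agent.TH246.C8_POS
import Pool.Agent.Y181.WLC
import Pool.Agent.Y181.NoLC

/-!
# A gklt pair without log terminal model

There is a projective (hence compact Kähler) threefold gklt pair `(X, B + β)`, with `β` nef on `X`
itself and `K_X + B + β` the sum of a nef and of an effective divisor (so pseudo-effective), which
has no log terminal model, not even a weak log canonical model.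
-/

set_option autoImplicit false

namespace Pool.Agent.Results.MP_c8c12f_ag.NoLogTerminalModel

open Pool.Agent.H436R3.Fol Pool.Agent.TH202 Pool.Agent.Y181

theorem result : ∃ (K : Type) (_ : Field K) (_ : Algebra ℂ K) (_ : Algebra.EssFiniteType ℂ K)
    (T : Foliation K 3) (_ : T.space = ⊤) (X : Model K) (B β D : DVal K → ℝ),
    IsGklt T X B β D ∧ IsNef X β ∧ IsPsef X D ∧
    (∃ N : DVal K → ℝ, (∀ w, 0 ≤ N w) ∧ IsNef X (D - N)) ∧
    ∀ (Y : Model K) (E : DVal K → ℝ), ¬ IsWeakLCModel T X B β D Y E := by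
  obtain ⟨K, iF, iA, iE, ⟨d⟩⟩ := Pool.Agent.TH922.C8_DAT.exists_dat
  obtain ⟨T, hT, hTs⟩ := Pool.Agent.TH922.C8_DAT.exists_fol d
  have h := Pool.Agent.TH551.C8_XM1.xi_alg d
  obtain ⟨s⟩ := Pool.Agent.TH755.C8_SEQ.exists_sq d
  have h4 : (0 : ℝ) < 1 / 4 := by norm_num
  exact ⟨K, iF, iA, iE, T, hTs, Xd d h, Bd d (1 / 4), bt s, Dd s (1 / 4),
    Pool.Agent.TH246.C8_POS.is_gklt h s T hT h4 (by norm_num),
    Pool.Agent.TH246.C8_POS.bt_nef h s, Pool.Agent.TH246.C8_POS.is_psef h s h4,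
    nef_add_eff h s h4, fun Y E => no_lc_model h s T hT h4 Y E⟩

end Pool.Agent.Results.MP_c8c12f_ag.NoLogTerminalModel
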